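import Pool.Agent.Y7.EJ.StmO

/-!
# Project EJ, part TAIL: integrals and tails in a stage
-/

set_option autoImplicit false

namespace Pool.Agent.Y641.EJ

open Set Filter Topology MeasureTheory
open Pool.Agent.Y5 Pool.Agent.Y5.D Pool.Agent.Y7.EJ

section basic

variable {lm L C ℓ M hh : ℕ → ℝ} {B : ℕ → ℕ → ℝ} {T : ℝ} {x f : ℕ → ℝ → ℝ}

/-- an integral of a small mode -/
theorem I_le_one (g : Gd lm L C ℓ M hh B T x f) {m : ℕ} {t : ℝ} (ht : t ∈ Ico 0 T)
    (htl : t ≤ 4 * lm 0) (hY : ∀ τ ∈ Icc 0 t, √(Y x (m + 1) τ) ≤ eta lm m) :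
    Gd.I L x (m + 1) t ≤ 1 := by
  have q := g.sq
  have h2 := Pr_le_lin (g.cabs (m + 1)) (α := 0) (t := t) (c := L (m + 1) * eta lm m) le_rfl
    ht.2 ht.1 (fun τ hτ => by
      have h3 := (g.abs_le_sqrt (t := τ) ⟨hτ.1.le, hτ.2.trans ht.2⟩ (le_refl (m + 1))).trans
        (hY τ ⟨hτ.1.le, hτ.2.le⟩)
      have := sLp q (m + 1)
      gcongr)
  rw [Pr_zero, sub_zero, sub_zero] at h2
  refine h2.trans ?_
  have hL := EE_L q (k := m + 1) (n := m) (by omega)
  have ht' : t ≤ EE lm m := htl.trans (EE_lm4 q (Nat.zero_le m))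
  have hLp := sLp q (m + 1)
  have ht0 := ht.1
  have he := eta_pos (lm := lm) m
  calc L (m + 1) * eta lm m * t ≤ EE lm m * eta lm m * EE lm m := by
        have := EE_pos (lm := lm) m
        gcongr
    _ = EE lm m ^ 2 * Real.exp (-(14 / 10) * lm m) := by rw [eta]; ring
    _ ≤ Real.exp (0 * lm m) := EE_exp q m 2 (by norm_num)
    _ = 1 := by simp

theorem sumL (q : SeqP lm L C ℓ M hh B) (n : ℕ) :
    ∑ i ∈ Finset.range (n + 1), L i ≤ 101 / 100 * L n := by
  induction n with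
  | zero =>
    have := sLp q 0
    simp
    linarith
  | succ n ih =>
    rw [Finset.sum_range_succ]
    have h1 := sLs q n
    have h2 := sLp q n
    have h3 : 101 / 100 * L n ≤ 1 / 100 * L (n + 1) := by linarith
    linarith

theorem hpow8 (q : SeqP lm L C ℓ M hh B) (n : ℕ) : hh n ^ 8 ≤ hh n / 10 ^ 9 := by
  have h0 := q.hh_pos n
  have h1 := hh9 q n
  have h2 : hh n ^ 7 ≤ 1 / 10 ^ 9 := by
    calc hh n ^ 7 ≤ hh n ^ 1 := pow_le_pow_of_le_one h0.le (by linarith) (by norm_num)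
      _ ≤ 1 / 10 ^ 9 := by rw [pow_one]; exact h1
  calc hh n ^ 8 = hh n ^ 7 * hh n := by ring
    _ ≤ 1 / 10 ^ 9 * hh n := by gcongr
    _ = hh n / 10 ^ 9 := by ring

/-- `lm n ≤ hh n lm (n+1) / 10^9` -/
theorem lm_small (q : SeqP lm L C ℓ M hh B) (n : ℕ) :
    lm n ≤ hh n / 10 ^ 9 * lm (n + 1) := by
  refine (q.hh_ratio n).trans ?_
  have := slm q (n + 1)
  have := hpow8 q n
  gcongr

/-- `1 / hh n ≤ lm n / 10` -/
theorem inv_hh (q : SeqP lm L C ℓ M hh B) (n : ℕ) : 1 / hh n ≤ lm n / 10 := by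
  have h0 := q.hh_pos n
  have h1 := hh9 q n
  have h2 := q.hh_lm n
  have h3 := slm q n
  rw [div_le_iff₀ h0]
  have h4 : hh n ^ 7 ≤ 1 / 10 := by
    calc hh n ^ 7 ≤ hh n ^ 1 := pow_le_pow_of_le_one h0.le (by linarith) (by norm_num)
      _ ≤ 1 / 10 := by rw [pow_one]; linarith
  calc (1 : ℝ) ≤ lm n * hh n ^ 8 := h2
    _ = lm n * hh n ^ 7 * hh n := by ring
    _ ≤ lm n * (1 / 10) * hh n := by gcongr
    _ = lm n / 10 * hh n := by ring

end basic

theorem t_TAIL (hT : Pool.Agent.Y7.EJ.S_TIME) : Pool.Agent.Y7.EJ.S_TAIL := by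
  intro lm L C ℓ M hh B T x f g n τ ρ st
  have q := g.sq
  have hh0 := q.hh_pos n
  have hh0' := q.hh_pos (n + 1)
  have hh9a := hh9 q n
  have hh9b := hh9 q (n + 1)
  have l0 := q.lm_big n
  have l01 := slm100 q n
  have l12 : 100 * lm (n + 1) ≤ lm (n + 2) := slm100 q (n + 1)
  have lz := slm q 0
  have l1p := slm q (n + 1)
  have l2p := slm q (n + 2)
  have s1 := lm_small q n
  have s2 : lm (n + 1) ≤ hh (n + 1) / 10 ^ 9 * lm (n + 2) := lm_small q (n + 1)
  have hτ3 : τ ≤ 3 * lm 0 := by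
    refine st.time.trans ?_
    have : (0 : ℝ) ≤ (1 / 2) ^ n := by positivity
    gcongr
    linarith
  -- the sums at the time `τ`
  have hA : ∑ i ∈ Finset.range (n + 1 + 1), Gd.I L x i τ ≤ 1 / 10 * lm (n + 1) := by
    rw [Finset.sum_range_succ]
    have h1 := st.sI
    have h2 := st.I1
    have h3 : 10 * hh n * lm (n + 1) ≤ 10 * (1 / 10 ^ 9) * lm (n + 1) := by gcongr
    linarith
  have hB : ∀ s ∈ Icc 0 τ, √(Y x (n + 2) s) ≤ eta lm (n + 1) := by
    intro s hs
    refine g.TB (m := n + 1) ⟨hs.1, hs.2.trans_lt st.τT⟩ (hs.2.trans (by linarith))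
      (le_trans ?_ hA)
    exact Finset.sum_le_sum fun i _ => g.I_mono i hs.1 hs.2 st.τT
  have hI2 : Gd.I L x (n + 2) τ ≤ hh (n + 1) * lm (n + 2) := by
    have h1 : Gd.I L x (n + 1 + 1) τ ≤ 1 :=
      I_le_one g (m := n + 1) ⟨st.τ0, st.τT⟩ (by linarith) hB
    have h2 : hh (n + 1) / 10 ^ 9 * lm (n + 2) ≤ hh (n + 1) * lm (n + 2) := by
      have : hh (n + 1) / 10 ^ 9 ≤ hh (n + 1) := by
        rw [div_le_iff₀ (by norm_num)]
        linarith
      gcongr
    have h3 := q.lm_big (n + 1)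
    calc Gd.I L x (n + 2) τ ≤ 1 := h1
      _ ≤ lm (n + 1) := by linarith
      _ ≤ _ := s2.trans h2
  refine ⟨hB, hI2, fun t gt => ?_⟩
  have hτt := gt.τt
  have ht0 : 0 ≤ t := st.τ0.trans hτt
  -- sums in the stage
  have hS : ∀ s ∈ Icc τ t, ∑ i ∈ Finset.range (n + 2), Gd.I L x i s
      ≤ lm (n + 1) * (Aa lm L x n τ s + 11 * hh n) := by
    intro s hs
    have gs : Gt lm L hh T x n τ s :=
      ⟨hs.1, hs.2.trans_lt gt.tT, fun r hr => gt.thr r ⟨hr.1, hr.2.trans hs.2⟩,
        fun r hr => gt.ang r ⟨hr.1, hr.2.trans hs.2⟩, fun r hr => gt.pos r ⟨hr.1, hr.2.trans hs.2⟩,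
        fun r hr => gt.nx r ⟨hr.1, hr.2.trans hs.2⟩⟩
    have hsT : s < T := gs.tT
    have h1 := (hT lm L C ℓ M hh B T x f g n τ ρ s st gs).1
    rw [Finset.sum_range_succ]
    have h2 : ∑ i ∈ Finset.range (n + 1), Gd.I L x i s ≤
        ∑ i ∈ Finset.range (n + 1), Gd.I L x i τ + (∑ i ∈ Finset.range (n + 1), L i) * (s - τ) := by
      rw [Finset.sum_mul, ← Finset.sum_add_distrib]
      refine Finset.sum_le_sum fun i _ => ?_
      have h3 := Pr_le_lin (g.cabs i) (α := τ) (t := s) (c := L i) st.τ0 hsT hs.1 (fun r hr => by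
        have h4 := g.abs_le_one (t := r) ⟨st.τ0.trans hr.1.le, hr.2.trans hsT⟩ i
        have h5 := sLp q i
        calc L i * |x i r| ≤ L i * 1 := by gcongr
          _ = L i := mul_one _)
      have h6 : Gd.I L x i s - Gd.I L x i τ ≤ L i * (s - τ) := h3
      linarith
    have h3 : (∑ i ∈ Finset.range (n + 1), L i) * (s - τ) ≤ 101 / 100 * (4 * (lm n / 10)) := by
      have h4 : 0 ≤ s - τ := by linarith [hs.1]
      calc _ ≤ (101 / 100 * L n) * (s - τ) := by gcongr; exact sumL q n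
        _ = 101 / 100 * (L n * (s - τ)) := by ring
        _ ≤ 101 / 100 * (4 / hh n) := by gcongr
        _ = 101 / 100 * (4 * (1 / hh n)) := by ring
        _ ≤ _ := by linarith [inv_hh q n]
    have h4 : Gd.I L x (n + 1) s = Gd.I L x (n + 1) τ + lm (n + 1) * Aa lm L x n τ s := by
      unfold Aa
      field_simp
      ring
    rw [h4]
    have h5 := st.sI
    have h6 := st.I1
    have h7 : hh n / 10 ^ 9 * lm (n + 1) = hh n * lm (n + 1) / 10 ^ 9 := by ring
    have h8 : 0 < hh n * lm (n + 1) := by positivity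
    have e : lm (n + 1) * (Aa lm L x n τ s + 11 * hh n) =
        lm (n + 1) * Aa lm L x n τ s + 11 * (hh n * lm (n + 1)) := by ring
    rw [e]
    have e2 : 10 * hh n * lm (n + 1) = 10 * (hh n * lm (n + 1)) := by ring
    rw [e2] at h6
    rw [h7] at s1
    linarith
  have hT2 := (hT lm L C ℓ M hh B T x f g n τ ρ t st gt).2
  have ht3 : t ≤ 3 * lm 0 := by
    refine hT2.trans ?_
    have : (0 : ℝ) ≤ (1 / 2) ^ (n + 1) := by positivity
    gcongr
    linarith
  have hs0 : ∀ s ∈ Icc τ t, s ∈ Ico 0 T := fun s hs =>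
    ⟨st.τ0.trans hs.1, hs.2.trans_lt gt.tT⟩
  refine ⟨hS, fun s hs => ?_, ?_⟩
  · -- the tail
    have hs' := hs0 s hs
    have h1 := g.growI (n + 1) hs' (c := 2 * (L (n + 1) * C (n + 1))) (fun r hr => by
      have hLp := sLp q (n + 1)
      have hL1 := sL1 q (n + 1)
      have hCp := sCp q (n + 1)
      have hx : x (n + 1) r ^ 2 ≤ 1 := by
        have := g.abs_le_one (t := r) ⟨hr.1.le, hr.2.trans hs'.2⟩ (n + 1)
        rw [← sq_abs]
        exact pow_le_one₀ (abs_nonneg _) this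
      have a1 : src L C x (n + 1 + 1) r ≤ L (n + 1) * C (n + 1) := by
        unfold src
        rw [if_neg (by omega), Nat.add_sub_cancel]
        calc L (n + 1) * C (n + 1) * x (n + 1) r ^ 2 ≤ L (n + 1) * C (n + 1) * 1 := by gcongr
          _ = _ := mul_one _
      have a2 : 2 * ph lm (n + 1 + 1) ≤ L (n + 1) * C (n + 1) := by
        rw [ph_eq]
        have h2 := exp_next q (n + 1) (α := -1) (by norm_num)
        have hE := EE_big q (n + 1)
        have h3 := EE_exp q (n + 1) 1 (α := 100 * (-1)) (β := -(158 / 100)) (by norm_num)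
        rw [pow_one] at h3
        have h4 := C_lo' q (n + 1)
        have h5 : 2 * Real.exp (-1 * lm (n + 1 + 1)) ≤
            EE lm (n + 1) * Real.exp (100 * (-1) * lm (n + 1)) := by
          have := Real.exp_pos (-1 * lm (n + 1 + 1))
          gcongr
          linarith
        calc _ ≤ C (n + 1) := h5.trans (h3.trans h4)
          _ = 1 * C (n + 1) := (one_mul _).symm
          _ ≤ _ := by gcongr
      linarith)
    refine h1.trans ?_
    have hSs := hS s hs
    set S := ∑ i ∈ Finset.range (n + 1 + 1), Gd.I L x i s with hSdef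
    have hS0 : 0 ≤ S := Finset.sum_nonneg fun i _ => g.I_nonneg i hs'
    have hang := gt.ang s hs
    have hS2 : S ≤ 2 * lm (n + 1) := by
      refine hSs.trans ?_
      have h2 : Aa lm L x n τ s + 11 * hh n ≤ 2 := by linarith
      calc lm (n + 1) * (Aa lm L x n τ s + 11 * hh n) ≤ lm (n + 1) * 2 := by gcongr
        _ = 2 * lm (n + 1) := by ring
    have hexp : (1 + (lm (n + 1 + 1))⁻¹) * S + ph lm 0 * s ≤
        lm (n + 1) * (Aa lm L x n τ s + 11 * hh n) + 6 := by
      have h2 : (lm (n + 1 + 1))⁻¹ * S ≤ 2 := by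
        rw [inv_mul_le_iff₀ l2p]
        have h3 : lm (n + 1 + 1) = lm (n + 2) := rfl
        rw [h3]
        linarith
      have h4 : ph lm 0 * s ≤ 3 := by
        have h3 : ph lm 0 * lm 0 ≤ 1 := by
          rw [ph, Real.exp_neg, ← div_eq_inv_mul, div_le_one (Real.exp_pos _)]
          linarith [Real.add_one_le_exp (lm 0)]
        have h5 := ph_pos lm 0
        have h6 : s ≤ 3 * lm 0 := hs.2.trans ht3
        calc ph lm 0 * s ≤ ph lm 0 * (3 * lm 0) := by gcongr
          _ = 3 * (ph lm 0 * lm 0) := by ring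
          _ ≤ 3 := by linarith
      have e : (1 + (lm (n + 1 + 1))⁻¹) * S = S + (lm (n + 1 + 1))⁻¹ * S := by ring
      rw [e]
      linarith
    have hC : C (n + 1) = Real.exp (-(Real.pi / 2 * lm (n + 1))) := q.C_eq (n + 1)
    have hLE : L (n + 1) ≤ EE lm n := EE_L q (by omega)
    have hsE : s ≤ EE lm n := by
      have h2 := EE_lm4 q (Nat.zero_le n)
      have h3 := hs.2
      linarith
    have h6E : 2 * Real.exp 6 ≤ EE lm n := by
      have h2 := EE_big q n
      have h3 : Real.exp 6 ≤ 3 ^ 6 := by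
        have e : (6 : ℝ) = ((6 : ℕ) : ℝ) * 1 := by norm_num
        rw [e, Real.exp_nat_mul]
        have := Real.exp_one_lt_d9
        have := Real.exp_pos 1
        gcongr
        linarith
      have h4 : (2 : ℝ) * 3 ^ 6 ≤ 10 ^ 45 := by norm_num
      linarith
    have hLp := sLp q (n + 1)
    have hEp := EE_pos (lm := lm) n
    have hE3 : EE lm n ^ 3 ≤ Real.exp (hh n * lm (n + 1)) := by
      rw [EE, ← Real.exp_nat_mul]
      apply Real.exp_le_exp.2
      push_cast
      have h8 : 0 < hh n * lm (n + 1) := by positivity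
      have h7 : hh n / 10 ^ 9 * lm (n + 1) = hh n * lm (n + 1) / 10 ^ 9 := by ring
      rw [h7] at s1
      linarith
    have hs00 := hs'.1
    calc Real.exp ((1 + (lm (n + 1 + 1))⁻¹) * S + ph lm 0 * s) *
          (2 * (L (n + 1) * C (n + 1)) * s)
        ≤ Real.exp (lm (n + 1) * (Aa lm L x n τ s + 11 * hh n) + 6) *
          (2 * (L (n + 1) * C (n + 1)) * s) := by
          have := sCp q (n + 1)
          gcongr
      _ = (2 * Real.exp 6) * L (n + 1) * s * (Real.exp (lm (n + 1) * (Aa lm L x n τ s +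
          11 * hh n)) * Real.exp (-(Real.pi / 2 * lm (n + 1)))) := by
          rw [Real.exp_add, hC]; ring
      _ ≤ EE lm n * EE lm n * EE lm n * (Real.exp (lm (n + 1) * (Aa lm L x n τ s +
          11 * hh n)) * Real.exp (-(Real.pi / 2 * lm (n + 1)))) := by
          gcongr
      _ = EE lm n ^ 3 * (Real.exp (lm (n + 1) * (Aa lm L x n τ s +
          11 * hh n)) * Real.exp (-(Real.pi / 2 * lm (n + 1)))) := by ring
      _ ≤ Real.exp (hh n * lm (n + 1)) * (Real.exp (lm (n + 1) * (Aa lm L x n τ s +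
          11 * hh n)) * Real.exp (-(Real.pi / 2 * lm (n + 1)))) := by
          gcongr
      _ = Real.exp (lm (n + 1) * (Aa lm L x n τ s - Real.pi / 2 + 12 * hh n)) := by
          rw [← Real.exp_add, ← Real.exp_add]
          congr 1
          ring
  · -- the next integrals
    have htt : t ∈ Icc τ t := ⟨hτt, le_rfl⟩
    have h4 : Gd.I L x (n + 2) t = Gd.I L x (n + 2) τ + lm (n + 2) * Aa lm L x (n + 1) τ t := by
      unfold Aa
      have : lm (n + 1 + 1) ≠ 0 := l2p.ne'
      have e : lm (n + 1 + 1) = lm (n + 2) := rfl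
      rw [mul_div_assoc', e, mul_div_cancel_left₀ _ l2p.ne']
      ring
    have h5 := gt.nx t htt
    have h6 : lm (n + 2) * Aa lm L x (n + 1) τ t ≤ lm (n + 2) * (5 * hh (n + 1)) := by gcongr
    have hang := gt.ang t htt
    have h7 := hS t htt
    have hS2 : lm (n + 1) * (Aa lm L x n τ t + 11 * hh n) ≤ 2 * lm (n + 1) := by
      have h2 : Aa lm L x n τ t + 11 * hh n ≤ 2 := by linarith
      calc lm (n + 1) * (Aa lm L x n τ t + 11 * hh n) ≤ lm (n + 1) * 2 := by gcongr
        _ = 2 * lm (n + 1) := by ring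
    have h8 : hh (n + 1) * lm (n + 2) ≤ 1 / 10 ^ 9 * lm (n + 2) := by gcongr
    have hsum : ∑ i ∈ Finset.range (n + 3), Gd.I L x i t ≤ 1 / 10 * lm (n + 2) := by
      rw [Finset.sum_range_succ, h4]
      have e : lm (n + 2) * (5 * hh (n + 1)) = 5 * (hh (n + 1) * lm (n + 2)) := by ring
      rw [e] at h6
      linarith
    refine ⟨hsum, fun s hs => ?_⟩
    have htl : t ≤ 4 * lm 0 := by linarith
    refine g.TB (m := n + 2) ⟨hs.1, hs.2.trans_lt gt.tT⟩ (hs.2.trans htl) (le_trans ?_ hsum)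
    exact Finset.sum_le_sum fun i _ => g.I_mono i hs.1 hs.2 gt.tT

end Pool.Agent.Y641.EJ
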